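import Pool.Agent.helper4.GA.Spec
import Pool.Agent.helper32.Cant.Basic

set_option autoImplicit false

open Finset
open Pool.Agent.helper32.Cant

namespace Pool.Agent.GA

/-- atoms of small conditional probability -/
theorem CEL_small {Ω α ζ : Type} [Fintype Ω] {μ : Ω → ℝ} (hμ : IsProb μ) (X : Ω → α)
    (Z : Ω → ζ) (Q : Ω → Prop) {t : ℝ} (ht : 0 ≤ t) (m : ℕ)
    (hm : ∀ ω, 0 < μ ω → ∃ F : Finset ζ, F.card ≤ m ∧ ∀ y, Q y → X y = X ω → Z y ∈ F) :
    ex μ (fun ω => ind (Q ω ∧ pm μ (fun y => (X y, Z y)) ω < t * pm μ X ω)) ≤ m * t := by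
  classical
  rw [← ex_ce hμ.1 X]
  rw [← ex_const hμ ((m : ℝ) * t)]
  refine ex_mono hμ.1 fun ω hω => ?_
  obtain ⟨F, hFm, hF⟩ := hm ω hω
  have hP := pm_pos hμ.1 X hω
  unfold ce
  rw [div_le_iff₀ hP]
  set f : Ω → ℝ := fun y => ind (Q y ∧ pm μ (fun y => (X y, Z y)) y < t * pm μ X y) with hf
  have h1 : ∑ y, μ y * ind (X y = X ω) * f y
      ≤ ∑ y, ∑ z ∈ F, μ y * ind (X y = X ω) * ind (Z y = z) * f y := by
    refine sum_le_sum fun y _ => ?_
    by_cases hy : X y = X ω
    · have h0 := hμ.1 y
      by_cases hQ : Q y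
      swap
      · have h7 : f y = 0 := by
          simp only [hf]
          exact ind_of_not (fun h => hQ h.1)
        rw [h7]; simp
      · have h2 := hF y hQ hy
        have h3 := single_le_sum (f := fun z => μ y * ind (X y = X ω) * ind (Z y = z) * f y)
          (fun z _ => mul_nonneg (mul_nonneg (mul_nonneg h0 (ind_nonneg _)) (ind_nonneg _))
            (ind_nonneg _)) h2
        refine le_trans (le_of_eq ?_) h3
        rw [ind_of (rfl : Z y = Z y), mul_one]
    · rw [ind_of_not hy]; simp
  refine h1.trans ?_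
  rw [sum_comm]
  have h4 : ∀ z ∈ F, ∑ y, μ y * ind (X y = X ω) * ind (Z y = z) * f y ≤ t * pm μ X ω := by
    intro z _
    by_cases hex : ∃ y0, X y0 = X ω ∧ Z y0 = z ∧ f y0 = 1
    · obtain ⟨y0, hy1, hy2, hy3⟩ := hex
      have h5 : pm μ (fun y => (X y, Z y)) y0 < t * pm μ X y0 := by
        by_contra hc
        simp only [hf] at hy3
        rw [ind_of_not (fun h => hc h.2)] at hy3
        exact zero_ne_one hy3
      rw [pm_eq hy1] at h5
      refine le_trans ?_ h5.le
      unfold pm
      refine sum_le_sum fun y _ => ?_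
      by_cases h6 : X y = X ω
      · by_cases h7 : Z y = z
        · rw [ind_of h6, ind_of h7, mul_one, mul_one,
            ind_of (show (X y, Z y) = (X y0, Z y0) by rw [h6, h7, hy1, hy2])]
          exact mul_le_mul_of_nonneg_left (ind_le_one _) (hμ.1 y)
        · rw [ind_of_not h7, mul_zero, zero_mul]
          exact mul_nonneg (hμ.1 y) (ind_nonneg _)
      · rw [ind_of_not h6, mul_zero, zero_mul, zero_mul]
        exact mul_nonneg (hμ.1 y) (ind_nonneg _)
    · rw [sum_eq_zero]
      · exact mul_nonneg ht hP.le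
      · intro y _
        by_cases h6 : X y = X ω
        · by_cases h7 : Z y = z
          · have h8 : f y = 0 := by
              by_contra hc
              refine hex ⟨y, h6, h7, ?_⟩
              simp only [hf] at hc ⊢
              by_cases h9 : Q y ∧ pm μ (fun y => (X y, Z y)) y < t * pm μ X y
              · exact ind_of h9
              · exact absurd (ind_of_not h9) hc
            rw [h8, mul_zero]
          · rw [ind_of_not h7]; simp
        · rw [ind_of_not h6]; simp
  refine (sum_le_card_nsmul F _ _ h4).trans ?_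
  rw [nsmul_eq_mul]
  have h10 : (F.card : ℝ) ≤ m := by exact_mod_cast hFm
  calc (F.card : ℝ) * (t * pm μ X ω) ≤ m * (t * pm μ X ω) :=
        mul_le_mul_of_nonneg_right h10 (mul_nonneg ht hP.le)
    _ = m * t * pm μ X ω := by ring

/-- given the translation, few cells of level `n` are met -/
theorem CEL_cells {n : ℕ} (c : Cfg n) (τ : ZMod (3 ^ (2 * n))) :
    ∃ F : Finset ℕ, F.card ≤ 2 * (c.G.image (fun x => yi c x / 3 ^ n)).card ∧
      ∀ y : Sp n, y.1 ∈ c.G → y.2 = τ → cell n n (uu c y) ∈ F := by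
  classical
  have : NeZero (3 ^ (2 * n)) := ⟨pow_ne_zero _ (by norm_num)⟩
  set b : ℤ := 3 ^ n with hb
  have hb0 : 0 < b := by positivity
  refine ⟨((c.G.image (fun x => yi c x / 3 ^ n)) ×ˢ ({0, 1} : Finset ℤ)).image
    (fun p => ((p.1 + (τ.val : ℤ) / b + p.2) - b * ((p.1 + (τ.val : ℤ) / b + p.2) / b)).toNat),
    ?_, ?_⟩
  · refine card_image_le.trans ?_
    rw [card_product]
    have : ({0, 1} : Finset ℤ).card = 2 := by decide
    rw [this, mul_comm]
  · intro y hyG hyτ
    set a : ℤ := yi c y.1 with ha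
    set S : ℤ := a + (τ.val : ℤ) with hS
    have hval : ((uu c y).val : ℤ) = S % (b * b) := by
      have e1 : uu c y = ((S : ℤ) : ZMod (3 ^ (2 * n))) := by
        unfold uu
        rw [hS]
        push_cast
        rw [hyτ, ZMod.natCast_zmod_val]
      rw [e1, ZMod.val_intCast]
      congr 1
      push_cast
      rw [hb, two_mul, pow_add]
    have hcell : ((cell n n (uu c y) : ℕ) : ℤ) = S / b - b * (S / b / b) := by
      unfold cell
      have e2 : 2 * n - n = n := by omega
      rw [e2]
      push_cast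
      rw [hval, ← hb]
      have e3 : S / b = b * (S / (b * b)) + S % (b * b) / b := by
        have e4 : S = S % (b * b) + b * (b * (S / (b * b))) := by
          have := Int.emod_add_mul_ediv S (b * b)
          rw [mul_assoc] at this
          exact this.symm
        have e5 : (S % (b * b) + b * (b * (S / (b * b)))) / b
            = S % (b * b) / b + b * (S / (b * b)) := Int.add_mul_ediv_left _ _ hb0.ne'
        rw [← e4] at e5
        rw [e5, add_comm]
      rw [Int.ediv_ediv_of_nonneg hb0.le]
      linarith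
    set δ : ℤ := S / b - a / b - (τ.val : ℤ) / b with hδ
    have ha1 := Int.emod_add_mul_ediv a b
    have ha2 := Int.emod_nonneg a hb0.ne'
    have ha3 := Int.emod_lt_of_pos a hb0
    have ht1 := Int.emod_add_mul_ediv (τ.val : ℤ) b
    have ht2 := Int.emod_nonneg (τ.val : ℤ) hb0.ne'
    have ht3 := Int.emod_lt_of_pos (τ.val : ℤ) hb0
    have hlo : a / b + (τ.val : ℤ) / b ≤ S / b := by
      refine Int.le_ediv_of_mul_le hb0 ?_
      rw [hS]
      nlinarith
    have hhi : S / b < a / b + (τ.val : ℤ) / b + 2 := by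
      refine Int.ediv_lt_of_lt_mul hb0 ?_
      rw [hS]
      nlinarith
    have hδ01 : δ = 0 ∨ δ = 1 := by omega
    refine mem_image.2 ⟨(a / b, δ), mem_product.2 ⟨mem_image.2 ⟨y.1, hyG, ?_⟩, ?_⟩, ?_⟩
    · simp only [ha, hb]
    · simp only [mem_insert, mem_singleton]
      exact hδ01
    · simp only []
      have e6 : a / b + (τ.val : ℤ) / b + δ = S / b := by rw [hδ]; ring
      rw [e6, ← hcell, Int.toNat_natCast]

theorem CEL_mu {n : ℕ} (c : Cfg n) (z : Sp n) :
    mu (full c) z = 1 / ((6 : ℝ) ^ n * 3 ^ (2 * n)) := by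
  classical
  have h1 : z.1 ∈ (full c).G := mem_univ _
  have h2 : ((full c).G.card : ℝ) = 6 ^ n := by
    have : (full c).G = univ := rfl
    rw [this, card_univ, Fintype.card_prod, Fintype.card_fin, Fintype.card_fun, Fintype.card_bool,
      Fintype.card_fin]
    push_cast
    rw [← mul_pow]
    norm_num
  unfold mu
  rw [if_pos h1, h2]

theorem CEL : CEL_stmt := by
  intro n c y
  classical
  have : NeZero (3 ^ (2 * n)) := ⟨pow_ne_zero _ (by norm_num)⟩
  have hpos : ∀ z, 0 < mu (full c) z := fun z => by rw [CEL_mu]; positivity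
  have hcardSp : (Fintype.card (Sp n) : ℝ) = 6 ^ n * 3 ^ (2 * n) := by
    rw [Fintype.card_prod, Fintype.card_prod, Fintype.card_fin, Fintype.card_fun,
      Fintype.card_bool, Fintype.card_fin, ZMod.card]
    push_cast
    rw [← mul_pow]
    norm_num
  have hμ : IsProb (mu (full c)) := by
    refine ⟨fun z => (hpos z).le, ?_⟩
    rw [sum_congr rfl (fun z _ => CEL_mu c z), sum_const, card_univ, nsmul_eq_mul, hcardSp]
    field_simp
  have h1 : (c.G.card : ℝ) / 6 ^ n = ex (mu (full c)) (fun z => ind (z.1 ∈ c.G)) := by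
    unfold ex
    rw [sum_congr rfl (fun z _ => by rw [CEL_mu c z]), ← mul_sum]
    have h2 : ∑ z : Sp n, ind (z.1 ∈ c.G) = c.G.card * 3 ^ (2 * n) := by
      rw [Fintype.sum_prod_type]
      simp only [sum_const, card_univ, ZMod.card, nsmul_eq_mul]
      rw [← mul_sum]
      have h3 : ∑ x : Fin (3 ^ n) × Word n, ind (x ∈ c.G) = (c.G.card : ℝ) := by
        have h9 : ∀ x : Fin (3 ^ n) × Word n, ind (x ∈ c.G) = if x ∈ c.G then (1 : ℝ) else 0 := by
          intro x
          by_cases hx : x ∈ c.G
          · rw [ind_of hx, if_pos hx]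
          · rw [ind_of_not hx, if_neg hx]
        rw [sum_congr rfl (fun x _ => h9 x), ← sum_filter, sum_const, nsmul_eq_mul, mul_one]
        congr 2
        ext x
        simp
      rw [h3]
      push_cast
      ring
    rw [h2]
    field_simp
  rw [h1]
  have h4 : ex (mu (full c)) (fun z => ind (z.1 ∈ c.G ∧ lam (full c) n z < y)) ≤
      2 * (c.G.image (fun x => yi c x / 3 ^ n)).card / 3 ^ n * Real.exp y := by
    have h5 : ex (mu (full c)) (fun z => ind (z.1 ∈ c.G ∧ lam (full c) n z < y))
        = ex (mu (full c)) (fun x => ind (x.1 ∈ c.G ∧ pm (mu (full c))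
            (fun y => ((fun y : Sp n => (y.2, y.1.2)) y,
            (fun y : Sp n => cell n n (uu c y)) y)) x
              < Real.exp y / 3 ^ n * pm (mu (full c)) (fun y : Sp n => (y.2, y.1.2)) x)) := by
      refine ex_congr hμ.1 fun x hx => ?_
      refine ind_congr (and_congr Iff.rfl ?_)
      have h2 : pm (mu (full c)) (fun y : Sp n => (y.2, y.1.2, cell n n (uu (full c) y)))
          = pm (mu (full c)) (fun y => ((fun y : Sp n => (y.2, y.1.2)) y,
            (fun y : Sp n => cell n n (uu c y)) y)) := by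
        refine pm_congr fun ω ω' => ?_
        simp only [Prod.mk.injEq, and_assoc]
        rfl
      unfold lam
      rw [h2]
      have h3 := pm_pos hμ.1 (fun y => ((fun y : Sp n => (y.2, y.1.2)) y,
            (fun y : Sp n => cell n n (uu c y)) y)) hx
      have h4 := pm_pos hμ.1 (fun y : Sp n => (y.2, y.1.2)) hx
      rw [Real.log_lt_iff_lt_exp (by positivity), div_lt_iff₀ h4, div_mul_eq_mul_div,
        lt_div_iff₀ (by positivity), mul_comm (pm _ _ _)]
    rw [h5]
    refine (CEL_small hμ (fun y : Sp n => (y.2, y.1.2)) (fun y : Sp n => cell n n (uu c y))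
      (fun x => x.1 ∈ c.G) (t := Real.exp y / 3 ^ n) (by positivity)
      (2 * (c.G.image (fun x => yi c x / 3 ^ n)).card) ?_).trans (le_of_eq ?_)
    · intro ω _
      obtain ⟨F, hF1, hF2⟩ := CEL_cells c ω.2
      refine ⟨F, hF1, fun y' hy' h => hF2 y' hy' ?_⟩
      exact (Prod.mk.inj h).1
    · push_cast
      ring
  refine le_trans ?_ (add_le_add le_rfl h4)
  rw [← ex_add]
  refine ex_mono hμ.1 fun z _ => ?_
  by_cases hz : z.1 ∈ c.G
  · by_cases hl : y ≤ lam (full c) n z
    · rw [ind_of hl]
      have := ind_le_one (z.1 ∈ c.G)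
      have := ind_nonneg (z.1 ∈ c.G ∧ lam (full c) n z < y)
      linarith
    · rw [ind_of hz, ind_of_not hl, ind_of ⟨hz, lt_of_not_ge hl⟩, zero_add]
  · rw [ind_of_not hz]
    have := ind_nonneg (y ≤ lam (full c) n z)
    have := ind_nonneg (z.1 ∈ c.G ∧ lam (full c) n z < y)
    linarith

end Pool.Agent.GA
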