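import Pool.Agent.helper4.GA.Spec
import Pool.Agent.helper97.Cant.RX

set_option autoImplicit false

open Finset
open Pool.Agent.helper32.Cant

namespace Pool.Agent.GA

theorem CFG_floor_near {u v : ℝ} (h : |u - v| ≤ 5 / 2) :
    ∃ d ∈ Finset.Icc (-3 : ℤ) 3, ⌊u⌋ = ⌊v⌋ + d := by
  refine ⟨⌊u⌋ - ⌊v⌋, ?_, by ring⟩
  rw [abs_le] at h
  have h1 := Int.floor_le u
  have h2 := Int.lt_floor_add_one u
  have h3 := Int.floor_le v
  have h4 := Int.lt_floor_add_one v
  rw [Finset.mem_Icc]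
  constructor
  · have : ((-4 : ℤ) : ℝ) < ((⌊u⌋ - ⌊v⌋ : ℤ) : ℝ) := by push_cast; linarith
    have := Int.cast_lt.1 this
    omega
  · have : ((⌊u⌋ - ⌊v⌋ : ℤ) : ℝ) < ((4 : ℤ) : ℝ) := by push_cast; linarith
    have := Int.cast_lt.1 this
    omega

/-- the main estimate: the cell of `yi` -/
theorem CFG_cell {n : ℕ} {x r e o lam : ℝ} (hlam : 0 < lam)
    (hr : lam ≤ r ∧ r < 2 * lam) (he : |e| ≤ 1 / 2) {k : ℕ} (hk : ⌊3 ^ n * (x - o) / lam⌋ = k)
    {R : ℕ} (hR : ⌊3 ^ n * r / lam⌋ = R) {Ew : ℤ} (hE : |3 ^ n * e - (Ew : ℝ)| ≤ 1 / 2) :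
    ∃ d ∈ Finset.Icc (-3 : ℤ) 3, (3 ^ n * (k : ℤ) + (R : ℤ) * Ew) / 3 ^ n =
      ⌊3 ^ n * (x + r * e - o) / lam⌋ + d := by
  have h3 : (0 : ℝ) < 3 ^ n := by positivity
  have hfl : (3 ^ n * (k : ℤ) + (R : ℤ) * Ew) / 3 ^ n =
      ⌊((3 ^ n * (k : ℤ) + (R : ℤ) * Ew : ℤ) : ℝ) / ((3 ^ n : ℤ) : ℝ)⌋ := by
    rw [Int.floor_div_cast_of_nonneg (by positivity), Int.floor_intCast]
  rw [hfl]
  apply CFG_floor_near
  set a := 3 ^ n * (x - o) / lam with ha
  set ρ := 3 ^ n * r / lam with hρ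
  have e1 : 3 ^ n * (x + r * e - o) / lam = a + ρ * e := by rw [ha, hρ]; ring
  have hk1 : (k : ℝ) ≤ a := by have := Int.floor_le a; rw [hk] at this; exact_mod_cast this
  have hk2 : a < k + 1 := by have := Int.lt_floor_add_one a; rw [hk] at this; exact_mod_cast this
  have hR1 : (R : ℝ) ≤ ρ := by have := Int.floor_le ρ; rw [hR] at this; exact_mod_cast this
  have hR2 : ρ < R + 1 := by have := Int.lt_floor_add_one ρ; rw [hR] at this; exact_mod_cast this
  have hR3 : (R : ℝ) / 3 ^ n ≤ 2 := by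
    rw [div_le_iff₀ h3]
    have : ρ < 2 * 3 ^ n := by
      rw [hρ, div_lt_iff₀ hlam]
      nlinarith [hr.2]
    linarith
  rw [e1]
  set err := 3 ^ n * e - (Ew : ℝ) with herr
  have e2 : ((3 ^ n * (k : ℤ) + (R : ℤ) * Ew : ℤ) : ℝ) / ((3 ^ n : ℤ) : ℝ) - (a + ρ * e) =
      (k - a) + (R - ρ) * e - R / 3 ^ n * err := by
    push_cast
    rw [herr]
    field_simp
    ring
  rw [e2]
  have t1 : |(k : ℝ) - a| ≤ 1 := by rw [abs_le]; constructor <;> linarith
  have t2 : |((R : ℝ) - ρ) * e| ≤ 1 * (1 / 2) := by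
    rw [abs_mul]
    apply mul_le_mul _ he (abs_nonneg _) zero_le_one
    rw [abs_le]; constructor <;> linarith
  have t3 : |(R : ℝ) / 3 ^ n * err| ≤ 2 * (1 / 2) := by
    rw [abs_mul]
    apply mul_le_mul _ hE (abs_nonneg _) zero_le_two
    rw [abs_of_nonneg (by positivity)]
    exact hR3
  calc |(k : ℝ) - a + (R - ρ) * e - R / 3 ^ n * err|
      ≤ |(k : ℝ) - a + (R - ρ) * e| + |R / 3 ^ n * err| := abs_sub _ _
    _ ≤ (|(k : ℝ) - a| + |(R - ρ) * e|) + |R / 3 ^ n * err| := by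
        gcongr; exact abs_add_le _ _
    _ ≤ 5 / 2 := by linarith

theorem CFG : CFG_stmt := by
  intro S' r o lam hlam hr hx B hB hS f C0 hC0 p0
  classical
  rw [← MeasureTheory.hausdorffMeasure_real] at hS
  choose Z hZ1 hZ2 using hC0
  -- the bad words
  set W : (p : ℕ) → ℝ → (m : ℕ) → Finset (Word m) := fun p x m =>
    if p ≤ m then Finset.univ.filter (fun w => ∃ b : ℕ → Bool, pre b m = w ∧
      ⌊3 ^ m * (x + r x * ept b - o) / lam⌋ ∈ Z p m) else ∅ with hW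
  set P : ℕ → ℕ → ℝ → Prop := fun p n x => (2 : ℝ) ^ n / (4 * ((n : ℝ) + 1) ^ 2) < (W p x n).card
    with hP
  have hPp : ∀ p n x, P p n x → p ≤ n := by
    intro p n x h
    by_contra hlt
    have : W p x n = ∅ := by simp only [hW, if_neg hlt]
    simp only [hP] at h
    rw [this, Finset.card_empty, Nat.cast_zero] at h
    have : (0 : ℝ) < 2 ^ n / (4 * ((n : ℝ) + 1) ^ 2) := by positivity
    linarith
  have hPx : ∀ p, ∀ x ∈ S', ∃ n ≥ p, P p n x := by
    intro p x hxS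
    by_contra hcon
    push Not at hcon
    obtain ⟨b, hb⟩ := konig (W p x) (fun m => by
      by_cases hm : p ≤ m
      · exact not_lt.1 (hcon m hm)
      · have : W p x m = ∅ := by simp only [hW, if_neg hm]
        rw [this, Finset.card_empty, Nat.cast_zero]; positivity)
    have hy : x + r x * ept b ∈ B := by
      have := hB x hxS _ (ept_mem b)
      simpa using this
    obtain ⟨m, hm, hmZ⟩ := hZ2 p _ hy
    refine hb m ?_
    simp only [hW, if_pos hm, Finset.mem_filter, Finset.mem_univ, true_and]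
    exact ⟨b, rfl, hmZ⟩
  obtain ⟨p, hp, n, hn, hF⟩ := many_cells S' 1 one_pos hS o lam hlam P hPx p0
  rw [one_mul, Real.rpow_natCast] at hF
  refine ⟨n, hp.le.trans hn, ?_⟩
  -- the centres
  set F : Finset (Fin (3 ^ n)) := Finset.univ.filter (fun k => ∃ x ∈ S', P p n x ∧
    ⌊3 ^ n * (x - o) / lam⌋ = ((k : ℕ) : ℤ)) with hFdef
  have hFx : ∀ k : Fin (3 ^ n), ∃ x : ℝ, k ∈ F → x ∈ S' ∧ P p n x ∧
    ⌊3 ^ n * (x - o) / lam⌋ = ((k : ℕ) : ℤ) := by
    intro k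
    by_cases hk : k ∈ F
    · obtain ⟨x, h1, h2⟩ := (Finset.mem_filter.1 hk).2
      exact ⟨x, fun _ => ⟨h1, h2.1, h2.2⟩⟩
    · exact ⟨0, fun h => absurd h hk⟩
  choose x hxF using hFx
  have hFcard : (3 : ℝ) ^ n / ((n : ℝ) + 1) ^ 2 ≤ F.card := by
    have := hF (Finset.image (fun k : Fin (3 ^ n) => (((k : ℕ) : ℤ))) F) (by
      intro y hy hyP
      have h3 : (0 : ℝ) < 3 ^ n := by positivity
      have h0 : (0 : ℝ) ≤ 3 ^ n * (y - o) / lam := by
        have := (hx y hy).1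
        have : 0 ≤ y - o := by linarith
        positivity
      have h1 : 3 ^ n * (y - o) / lam < 3 ^ n := by
        rw [div_lt_iff₀ hlam]
        have := (hx y hy).2
        nlinarith
      have h2 : 0 ≤ ⌊3 ^ n * (y - o) / lam⌋ := Int.floor_nonneg.2 h0
      have h4 : ⌊3 ^ n * (y - o) / lam⌋.toNat < 3 ^ n := by
        have : ⌊3 ^ n * (y - o) / lam⌋ < ((3 ^ n : ℕ) : ℤ) := by
          rw [Int.floor_lt]; push_cast; exact h1
        omega
      refine Finset.mem_image.2 ⟨⟨_, h4⟩, ?_, ?_⟩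
      · refine Finset.mem_filter.2 ⟨Finset.mem_univ _, y, hy, hyP, ?_⟩
        simp [Int.toNat_of_nonneg h2]
      · simp [Int.toNat_of_nonneg h2])
    refine this.trans ?_
    exact_mod_cast Finset.card_image_le
  set R : Fin (3 ^ n) → ℕ := fun k =>
    if k ∈ F then ⌊3 ^ n * r (x k) / lam⌋.toNat else 3 ^ n with hRdef
  have hRF : ∀ k ∈ F, ⌊3 ^ n * r (x k) / lam⌋ = ((R k : ℕ) : ℤ) ∧ 3 ^ n ≤ R k ∧ R k < 2 * 3 ^ n := by
    intro k hk
    have h3 : (0 : ℝ) < 3 ^ n := by positivity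
    obtain ⟨h1, h2⟩ := hr (x k) (hxF k hk).1
    have h4 : (3 : ℝ) ^ n ≤ 3 ^ n * r (x k) / lam := by
      rw [le_div_iff₀ hlam]; nlinarith
    have h5 : 3 ^ n * r (x k) / lam < 2 * 3 ^ n := by
      rw [div_lt_iff₀ hlam]; nlinarith
    have h6 : ((3 ^ n : ℕ) : ℤ) ≤ ⌊3 ^ n * r (x k) / lam⌋ := by
      rw [Int.le_floor]; push_cast; exact h4
    have h7 : ⌊3 ^ n * r (x k) / lam⌋ < ((2 * 3 ^ n : ℕ) : ℤ) := by
      rw [Int.floor_lt]; push_cast; exact h5
    simp only [hRdef, if_pos hk]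
    omega
  set G : Finset (Fin (3 ^ n) × Word n) :=
    Finset.univ.filter (fun z => z.1 ∈ F ∧ z.2 ∈ W p (x z.1) n) with hGdef
  have hGcard : (F.card : ℝ) * (2 ^ n / (4 * ((n : ℝ) + 1) ^ 2)) ≤ G.card := by
    have h1 : G.card = ∑ k ∈ F, (W p (x k) n).card := by
      have h2 : G = F.biUnion (fun k => (W p (x k) n).image (fun w => (k, w))) := by
        ext ⟨k, w⟩
        simp [hGdef]
      rw [h2, Finset.card_biUnion]
      · refine Finset.sum_congr rfl fun k _ => ?_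
        exact Finset.card_image_of_injective _ (fun a b h => by simpa using h)
      · intro k _ k' _ hkk
        rw [Function.onFun, Finset.disjoint_left]
        rintro ⟨a, b⟩ h1 h2
        simp only [Finset.mem_image, Prod.mk.injEq] at h1 h2
        obtain ⟨_, _, h1, _⟩ := h1
        obtain ⟨_, _, h2, _⟩ := h2
        exact hkk (h1.trans h2.symm)
    rw [h1, Nat.cast_sum]
    calc (F.card : ℝ) * (2 ^ n / (4 * ((n : ℝ) + 1) ^ 2))
        = ∑ _k ∈ F, (2 : ℝ) ^ n / (4 * ((n : ℝ) + 1) ^ 2) := by simp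
      _ ≤ ∑ k ∈ F, ((W p (x k) n).card : ℝ) :=
        Finset.sum_le_sum fun k hk => (hxF k hk).2.1.le
  have hGb : (3 : ℝ) ^ n * 2 ^ n / (4 * ((n : ℝ) + 1) ^ 4) ≤ G.card := by
    refine le_trans ?_ hGcard
    calc (3 : ℝ) ^ n * 2 ^ n / (4 * ((n : ℝ) + 1) ^ 4)
        = (3 : ℝ) ^ n / ((n : ℝ) + 1) ^ 2 * (2 ^ n / (4 * ((n : ℝ) + 1) ^ 2)) := by
          field_simp
      _ ≤ (F.card : ℝ) * (2 ^ n / (4 * ((n : ℝ) + 1) ^ 2)) := by gcongr
  have hGne : G.Nonempty := by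
    rw [← Finset.card_pos]
    have h1 : (0 : ℝ) < (3 : ℝ) ^ n * 2 ^ n / (4 * ((n : ℝ) + 1) ^ 4) := by positivity
    exact_mod_cast h1.trans_le hGb
  let c : Cfg n :=
    { G := G
      R := R
      lo := fun k => by
        by_cases hk : k ∈ F
        · exact (hRF k hk).2.1
        · simp only [hRdef, if_neg hk]; exact le_rfl
      hi := fun k => by
        by_cases hk : k ∈ F
        · exact (hRF k hk).2.2
        · simp only [hRdef, if_neg hk]
          have : 0 < 3 ^ n := by positivity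
          omega
      ne := hGne }
  refine ⟨c, hGb, ?_⟩
  have hsub : c.G.image (fun z => yi c z / 3 ^ n) ⊆
      (Z p n ×ˢ Finset.Icc (-3 : ℤ) 3).image (fun q => q.1 + q.2) := by
    intro v hv
    obtain ⟨⟨k, w⟩, hkw, rfl⟩ := Finset.mem_image.1 hv
    obtain ⟨-, hk, hw⟩ := Finset.mem_filter.1 hkw
    simp only [hW, if_pos hn, Finset.mem_filter, Finset.mem_univ, true_and] at hw
    obtain ⟨b, hb, hbZ⟩ := hw
    have hE := ept_approx b n
    rw [hb] at hE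
    obtain ⟨d, hd, hdd⟩ := CFG_cell (n := n) hlam (hr (x k) (hxF k hk).1) (abs_ept_le b)
      (hxF k hk).2.2 (hRF k hk).1 hE
    refine Finset.mem_image.2 ⟨(⌊3 ^ n * (x k + r (x k) * ept b - o) / lam⌋, d),
      Finset.mem_product.2 ⟨hbZ, hd⟩, ?_⟩
    exact hdd.symm
  have hcard : (c.G.image (fun z => yi c z / 3 ^ n)).card ≤ (Z p n).card * 7 := by
    refine (Finset.card_le_card hsub).trans (Finset.card_image_le.trans ?_)
    rw [Finset.card_product]
    simp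
  calc ((c.G.image (fun z => yi c z / 3 ^ n)).card : ℝ) ≤ ((Z p n).card * 7 : ℕ) := by
        exact_mod_cast hcard
    _ = 7 * (Z p n).card := by push_cast; ring
    _ ≤ 7 * (C0 * f n) := by gcongr; exact hZ1 p n hn
    _ = 7 * C0 * f n := by ring

end Pool.Agent.GA
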